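import Pool.Agent.H771R3.TH.Stmts

set_option autoImplicit false

/-! Task Br0a of project H771-TH. -/

namespace Pool.Agent.H224R3.TH

open Filter Topology Pool.Agent.H771R3.TH

/-- the quotient `MM(e, -1 + e ω) / e` -/
def N2 (l a m d m' d' e ω : ℝ) : ℝ :=
  e * (-(l * e + m) * (-(a * (-1 + e * ω) * ω)) - -(l * (-1 + e * ω) + m') * (-(a * (e + 1)))) ^ 2 -
    (-(l * e + m) * (l * (-1 + e * ω) ^ 2 + (a + l + m' - d') * (-1 + e * ω) + m') -
      -(l * (-1 + e * ω) + m') * (l * e ^ 2 + (a + l + m - d) * e + m)) *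
    ((l * e ^ 2 + (a + l + m - d) * e + m) * (-(a * (-1 + e * ω) * ω)) -
      (l * (-1 + e * ω) ^ 2 + (a + l + m' - d') * (-1 + e * ω) + m') * (-(a * (e + 1))))

lemma N2_eq (l a m d m' d' e ω : ℝ) : MM l a m d m' d' e (-1 + e * ω) =
    e * N2 l a m d m' d' e ω := by
  unfold MM N2
  ring

theorem taskBr0a : TaskBr0a := by
  intro hroot l a m d m' d' hm ha hm' hal hd hne
  have hal' : a - l ≠ 0 := sub_ne_zero.2 hal
  have hmd : m' - d' ≠ 0 := sub_ne_zero.2 (Ne.symm hd)
  -- first branch
  obtain ⟨r, hr, hr0⟩ := hroot (fun e z => MM l a m d m' d' e z) (by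
    unfold MM Function.uncurry
    fun_prop) ((m' - d') / (a - l))
    (m ^ 2 * a * ((m' - d') / (a - l)) ^ 2 * ((m' - d') / (a - l) + 1) * (a - l)) (by
      have h1 : (m' - d') / (a - l) + 1 ≠ 0 := by
        rw [div_add_one hal']
        refine div_ne_zero ?_ hal'
        intro h
        apply hne
        linarith
      have h2 : (m' - d') / (a - l) ≠ 0 := div_ne_zero hmd hal'
      positivity) (by
      have h1 : (fun z : ℝ => MM l a m d m' d' 0 z) =
          fun z => (m ^ 2 * a * z ^ 2 * (z + 1)) * ((a - l) * z - (m' - d')) := by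
        funext z
        unfold MM
        ring
      show HasDerivAt (fun z : ℝ => MM l a m d m' d' 0 z) _ _
      rw [h1]
      set z0 := (m' - d') / (a - l) with hz0
      have h2 : (a - l) * z0 - (m' - d') = 0 := by
        rw [hz0]; field_simp; ring
      have h3 : HasDerivAt (fun z : ℝ => (a - l) * z - (m' - d')) (a - l) z0 := by
        have := ((hasDerivAt_id z0).const_mul (a - l)).sub_const (m' - d')
        simpa using this
      have h4 : DifferentiableAt ℝ (fun z : ℝ => m ^ 2 * a * z ^ 2 * (z + 1)) z0 := by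
        fun_prop
      have h5 := h4.hasDerivAt.mul h3
      rw [h2, mul_zero, zero_add] at h5
      exact h5) (by
      show MM l a m d m' d' 0 ((m' - d') / (a - l)) = 0
      have h1 : MM l a m d m' d' 0 ((m' - d') / (a - l)) =
          (m ^ 2 * a * ((m' - d') / (a - l)) ^ 2 * ((m' - d') / (a - l) + 1)) *
            ((a - l) * ((m' - d') / (a - l)) - (m' - d')) := by
        unfold MM
        ring
      rw [h1, mul_div_cancel₀ _ hal', sub_self, mul_zero])
  -- second branch
  obtain ⟨w, hw, hw0⟩ := hroot (fun e ω => N2 l a m d m' d' e ω) (by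
    unfold N2 Function.uncurry
    fun_prop) ((a - d') / m) (-(m ^ 2 * a * (a - d' - (l - m')))) (by
      rw [neg_ne_zero]
      positivity) (by
      have h1 : (fun ω : ℝ => N2 l a m d m' d' 0 ω) =
          fun ω => (-(m * a * (a - d' - (l - m')))) * (m * ω - (a - d')) := by
        funext ω
        unfold N2
        ring
      show HasDerivAt (fun ω : ℝ => N2 l a m d m' d' 0 ω) _ _
      rw [h1]
      have h3 : HasDerivAt (fun z : ℝ => m * z - (a - d')) m ((a - d') / m) := by
        have := ((hasDerivAt_id ((a - d') / m)).const_mul m).sub_const (a - d')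
        simpa using this
      have h4 := h3.const_mul (-(m * a * (a - d' - (l - m'))))
      rw [show -(m ^ 2 * a * (a - d' - (l - m'))) = -(m * a * (a - d' - (l - m'))) * m by ring]
      exact h4) (by
      show N2 l a m d m' d' 0 ((a - d') / m) = 0
      have h1 : N2 l a m d m' d' 0 ((a - d') / m) =
          (-(m * a * (a - d' - (l - m')))) * (m * ((a - d') / m) - (a - d')) := by
        unfold N2
        ring
      rw [h1, mul_div_cancel₀ _ hm, sub_self, mul_zero])
  refine ⟨r, fun e => -1 + e * w e, hr.mono_left nhdsWithin_le_nhds, ?_, ?_⟩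
  · have h1 : Tendsto w (𝓝[≠] 0) (𝓝 ((a - d') / m)) := hw.mono_left nhdsWithin_le_nhds
    refine h1.congr' ?_
    filter_upwards [self_mem_nhdsWithin] with e he
    have he' : e ≠ 0 := he
    field_simp
    ring
  · have h1 := hr0.filter_mono (nhdsWithin_le_nhds (s := {(0 : ℝ)}ᶜ))
    have h2 := hw0.filter_mono (nhdsWithin_le_nhds (s := {(0 : ℝ)}ᶜ))
    filter_upwards [h1, h2] with e he1 he2
    refine ⟨he1, ?_⟩
    rw [N2_eq, he2, mul_zero]

end Pool.Agent.H224R3.TH
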